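import Mathlib
import Pool.Agent.KS6_49.HY.Poset

/-!
# Every countable partial order embeds into the incomplete isomorphism relations

Q1 of MP_39df03_lc asks for a hyperarithmetic class `K` of computable structures whose isomorphism
relation `E_K` is neither `Δ¹₁` nor complete under hyperarithmetic reducibility `≤_h`. Here it is
shown that the order of such relations is as complicated as it can be: there are such classes `K A`,
one for each nonempty hyperarithmetic set `A` of natural numbers, with `E_{K A} ≤_h E_{K B}` if and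
only if `A ⊆ B`; and every countable partial order (even preorder) `P` embeds: there are such
classes `K p`, `p ∈ P`, with `E_{K p} ≤_h E_{K q}` if and only if `p ≤ q`. In particular there are
infinite antichains and dense chains.

The definitions `Struct`, `IndexOf`, `Iso`, `HypClass`, `IndexSet`, `IsoRel`, `HypRed`,
`IsComplete`, `Delta11` are in `Pool.Agent.KS6_49.L8.Helper941.Hyp.Defs`.
-/

namespace Pool.Agent.Results.MP_39df03_lc.PosetEmbedding

open Pool.Agent.Helper941.Hyp Pool.Agent.KS6_49.HY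

theorem result : ∃ ar : ℕ → ℕ, Computable ar ∧
    (∃ K : Set ℕ → Set (Struct ar),
      (∀ A : Set ℕ, (Delta11 fun n => n ∈ A) → A.Nonempty →
        HypClass (K A) ∧ ¬ Delta11 (IsoRel (K A)) ∧ ¬ IsComplete (K A) ∧
          ∀ y, IndexSet (K A) y → Delta11 fun x => IsoRel (K A) (x, y)) ∧
      ∀ A B : Set ℕ, (Delta11 fun n => n ∈ A) → (Delta11 fun n => n ∈ B) →
        (HypRed (K A) (K B) ↔ A ⊆ B) ∧ (A ⊆ B → K A ⊆ K B)) ∧
    ∀ (P : Type) [Preorder P] [Countable P], ∃ K : P → Set (Struct ar),
      (∀ p, HypClass (K p) ∧ ¬ Delta11 (IsoRel (K p)) ∧ ¬ IsComplete (K p) ∧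
        ∀ y, IndexSet (K p) y → Delta11 fun x => IsoRel (K p) (x, y)) ∧
      ∀ p q, (HypRed (K p) (K q) ↔ p ≤ q) ∧ (p ≤ q → K p ⊆ K q) := by
  refine ⟨ar2, Computable.const 2, ⟨KC, fun A hA hne => ⟨kc_hyp hA, kc_not_delta hne,
    kc_incomplete A, fun y hy => kc_cells hy⟩, fun A B _ hB => ⟨kc_red_iff hB, kc_mono⟩⟩,
    fun P _ _ => ?_⟩
  obtain ⟨S, h1, h2⟩ := exists_embedding P
  exact ⟨fun p => KC (S p), fun p => ⟨kc_hyp (h1 p).1, kc_not_delta (h1 p).2, kc_incomplete _,
    fun y hy => kc_cells hy⟩, fun p q => ⟨(kc_red_iff (h1 q).1).trans (h2 p q),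
      fun h => kc_mono ((h2 p q).2 h)⟩⟩

end Pool.Agent.Results.MP_39df03_lc.PosetEmbedding
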